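import Mathlib
import Pool.Agent.J4H36.B2

set_option autoImplicit false

/-! # The density with its correction factor, up to the primes of medium size, for all but boundedly many
bases

For a prime `p ∤ n` let `index n p = (p - 1) / ord_p(n)`; so `n` is a primitive root modulo `p` if and only
if no prime `l` divides `index n p`.  There is an absolute constant `C` with the following property.  Let
`0 < ε`, `0 < δ ≤ 1`, and let `y ≥ y₀(ε)`.  If `M` is ANY finite multiplicatively independent set of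
nonzero integers, then for all large `x` and for all `n ∈ M` with at most `C / (ε δ)` exceptions: if `n` is
not a perfect power and has squarefree part `D ≡ 1 mod 4`, then the number of the primes `p ≤ x` such that
all prime factors of `index n p` are in `(y, x ^ δ]` is `(δ(D) + O(ε)) π(x)`, where
`δ(D) = (1 - μ(|D|) ∏_{q ∣ D} 1 / (q² - q - 1)) C_Artin` is the density of Q1.

So all primes `p` are counted, the density is the one of Q1, the number of exceptions does not depend on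
`M`, and only the prime factors `l` of the index with `y < l ≤ x ^ δ` are not controlled. -/

namespace Pool.Agent.Results.MP_991e92_nt.BoundedExceptions

open Finset Classical

/-- the index of the subgroup generated by `n` in the group of the units modulo the prime `p ∤ n` -/
noncomputable def index (n : ℤ) (p : ℕ) : ℕ := (p - 1) / orderOf (n : ZMod p)

/-- the number of the primes `p ≤ x`, `p ∤ n`, for which every prime factor `l` of the index of `n` modulo
`p` satisfies `y < l ≤ x ^ δ` -/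
noncomputable def Q (n : ℤ) (x y : ℕ) (δ : ℝ) : ℕ :=
  ((Finset.range (x + 1)).filter (fun p : ℕ => p.Prime ∧ ¬ (p : ℤ) ∣ n ∧
    ∀ l : ℕ, l.Prime → l ∣ index n p → y < l ∧ (l : ℝ) ≤ (x : ℝ) ^ δ)).card

/-- the density of Q1 for the integers with squarefree part `D` -/
noncomputable def dens (D : ℤ) : ℝ :=
  (1 - ((ArithmeticFunction.moebius D.natAbs : ℤ) : ℝ) *
    ∏ q ∈ D.natAbs.primeFactors, (1 / ((q : ℝ) ^ 2 - (q : ℝ) - 1))) *
  ∏' p : Nat.Primes, (1 - 1 / (((p : ℕ) : ℝ) * (((p : ℕ) : ℝ) - 1)))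

/-- multiplicative independence -/
def Independent (M : Finset ℤ) : Prop :=
  ∀ c : ℤ → ℤ, ∏ n ∈ M, (n : ℚ) ^ (c n) = 1 → ∀ n ∈ M, c n = 0

theorem Q_eq (n : ℤ) (x y : ℕ) (δ : ℝ) :
    Q n x y δ = (Pool.Agent.J4H36.Mid n x y ⌊(x : ℝ) ^ δ⌋₊).card := by
  unfold Q Pool.Agent.J4H36.Mid index
  congr 1
  ext p
  rw [mem_filter, mem_filter, Pool.Agent.J4H36.mem_P1_one, mem_range]
  have h0 : (0 : ℝ) ≤ (x : ℝ) ^ δ := Real.rpow_nonneg (Nat.cast_nonneg x) δ
  constructor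
  · rintro ⟨h1, h2, h3, h4⟩
    exact ⟨⟨h2, by omega⟩, h3, fun l hl hli => ⟨(h4 l hl hli).1, Nat.le_floor (h4 l hl hli).2⟩⟩
  · rintro ⟨⟨h2, h1⟩, h3, h4⟩
    exact ⟨by omega, h2, h3, fun l hl hli => ⟨(h4 l hl hli).1,
      (Nat.le_floor_iff h0).1 (h4 l hl hli).2⟩⟩

theorem result : ∃ C : ℝ, 0 < C ∧ ∀ ε δ : ℝ, 0 < ε → 0 < δ → δ ≤ 1 →
    ∃ y₀ : ℕ, ∀ y : ℕ, y₀ ≤ y →
      ∀ M : Finset ℤ, Independent M → (∀ n ∈ M, n ≠ 0) →
        ∃ x₀ : ℕ, ∀ x : ℕ, x₀ ≤ x →
          ∃ E ⊆ M, (E.card : ℝ) ≤ C / (ε * δ) ∧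
            ∀ n ∈ M, n ∉ E → (∀ r : ℕ, 1 < r → ∀ c : ℤ, c ^ r ≠ n) →
              ∀ D k : ℤ, Squarefree D → D % 4 = 1 → n = D * k ^ 2 →
                |(Q n x y δ : ℝ) - dens D * (Nat.primeCounting x : ℝ)| ≤
                  ε * (Nat.primeCounting x : ℝ) := by
  obtain ⟨C, hC, h⟩ := Pool.Agent.J4H36.thmB
  refine ⟨C, hC, fun ε δ hε hδ hδ1 => ?_⟩
  obtain ⟨y₀, hy₀⟩ := h ε δ hε hδ hδ1
  refine ⟨y₀, fun y hy M hM h0 => ?_⟩
  obtain ⟨x₀, hx₀⟩ := hy₀ y hy M h0 hM
  refine ⟨x₀, fun x hx => ?_⟩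
  obtain ⟨E, hE, hE1, hE2⟩ := hx₀ x hx
  refine ⟨E, hE, hE1, fun n hn hnE hpow D k hD hD4 hnD => ?_⟩
  have hk : k ≠ 0 := by
    rintro rfl
    apply h0 n hn
    rw [hnD]
    ring
  have h1 := hE2 n hn hnE ⟨n, D, k, hnD, hD, hD4, hk, hpow⟩ rfl
  rw [Q_eq]
  exact h1

end Pool.Agent.Results.MP_991e92_nt.BoundedExceptions
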