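import Mathlib
import Pool.Agent.J4H36.A6

set_option autoImplicit false

/-! # Almost maximal orders modulo almost all primes, for all but few bases

For a prime `p ∤ n` let `index n p = (p - 1) / ord_p(n)`, so that `n` is a primitive root modulo `p` if and
only if `index n p = 1`.  There is an absolute constant `C` such that the following holds for all `x ≥ 3`,
`T ≥ max(log x, 3)`, `0 < ε ≤ 1` and `w ≥ 1` with `(ε log w)² ≥ C log x log T`.  Let `M` be ANY
multiplicatively independent set of at most `T` nonzero integers of absolute value at most `exp T`.  Then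
for all `n ∈ M` with at most `C log x / (ε² log w)` exceptions one has `index n p ≤ w` for all primes
`p ≤ x`, `p ∤ n`, with at most `ε π(x)` exceptions.

For `w = x ^ ε` the number of exceptional `n` is at most `C / ε³`, whatever the independent set `M` is; its
elements may be as large as `exp (x ^ c)` with `c = ε⁴ / C`.  For `T = (log x) ^ B` and the smallest `w` one
has `w = exp (O_ε(√(log x log log x)))` and `O_ε(√(log x))` exceptions. -/

namespace Pool.Agent.Results.MP_991e92_nt.SmallIndexFewExceptions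

open Finset Classical

/-- the index of the subgroup generated by `n` in the group of the units modulo the prime `p ∤ n` -/
noncomputable def index (n : ℤ) (p : ℕ) : ℕ := (p - 1) / orderOf (n : ZMod p)

/-- the number of the primes `p ≤ x`, `p ∤ n`, for which the index of `n` modulo `p` exceeds `w` -/
noncomputable def big (n : ℤ) (x : ℕ) (w : ℝ) : ℕ :=
  ((Finset.range (x + 1)).filter (fun p : ℕ => p.Prime ∧ ¬ (p : ℤ) ∣ n ∧ w < (index n p : ℝ))).card

/-- multiplicative independence -/
def Independent (M : Finset ℤ) : Prop :=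
  ∀ c : ℤ → ℤ, ∏ n ∈ M, (n : ℚ) ^ (c n) = 1 → ∀ n ∈ M, c n = 0

theorem big_eq (n : ℤ) (x : ℕ) (w : ℝ) : big n x w = (Pool.Agent.J4H36.BigI n x w).card := by
  unfold big Pool.Agent.J4H36.BigI index
  congr 1
  ext p
  rw [mem_filter, mem_filter, Pool.Agent.J4H36.mem_P1_one, mem_range]
  constructor
  · rintro ⟨h1, h2, h3⟩
    exact ⟨⟨h2, by omega⟩, h3⟩
  · rintro ⟨⟨h2, h1⟩, h3⟩
    exact ⟨by omega, h2, h3⟩

theorem result : ∃ C : ℝ, 1 ≤ C ∧ ∀ (x : ℕ) (T : ℝ), 3 ≤ x → Real.log x ≤ T → 3 ≤ T →
    ∀ M : Finset ℤ, Independent M → (M.card : ℝ) ≤ T →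
      (∀ n ∈ M, n ≠ 0 ∧ |(n : ℝ)| ≤ Real.exp T) →
      ∀ ε w : ℝ, 0 < ε → ε ≤ 1 → 1 ≤ w →
        C * (Real.log x * Real.log T) ≤ (ε * Real.log w) ^ 2 →
        ((M.filter (fun n => ε * (Nat.primeCounting x : ℝ) < (big n x w : ℝ))).card : ℝ) ≤
          C * (Real.log x / (ε ^ 2 * Real.log w)) := by
  obtain ⟨C, hC, h⟩ := Pool.Agent.J4H36.thmA
  refine ⟨C, hC, fun x T hx hLT hT M hM hMT h0 ε w hε hε1 hw hcond => ?_⟩
  have h1 := h x T M hx hLT hT (fun n hn => (h0 n hn).1) hM hMT (fun n hn => (h0 n hn).2) ε w hε hε1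
    hw hcond
  refine le_trans (le_of_eq ?_) h1
  congr 2
  apply filter_congr
  intro n _
  rw [big_eq]

end Pool.Agent.Results.MP_991e92_nt.SmallIndexFewExceptions
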