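import Mathlib
import Pool.Agent.J4H36.ST.S10

set_option autoImplicit false

/-! # Strings of consecutive primes in intervals of bounded length with given primitive roots, for all but
boundedly many bases

Fix `k ≥ 1`.  There are `B` and `κ`, depending only on `k`, with the following properties.

(1) For every finite set `P` of odd primes there is an `H` such that, for all large `x`, after the removal of
at most `B` elements from `P`, there are at least `x / (log x)^κ` numbers `m ≤ x` for which the interval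
`(m, m + H]` contains at least `k` primes and ALL the remaining elements of `P` are primitive roots modulo
ALL the primes of the interval.  (So these are strings of at least `k` consecutive primes.)

(2) The same for every finite multiplicatively independent set of integers whose elements are quadratic
non-residues modulo one prime `q ≡ 17 mod 24`.

(3) For every finite multiplicatively independent set `M` of integers which are not of the form `± b²`,
`± 2 b²` there is an `H` such that for all large `x` and all `n ∈ M` with at most `B` exceptions there are at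
least `x / (log x)^κ` numbers `m ≤ x` for which `(m, m + H]` contains at least `k` primes and `n` is a
primitive root modulo all of them.

(4) If `M` is any (infinite) multiplicatively independent set of such integers, then for all `n ∈ M` with at
most `B` exceptions there is an `H` for which this holds for arbitrarily large `x`.  -/

namespace Pool.Agent.Results.MP_991e92_nt.StringsForAlmostAllBases

open Finset

/-- The interval `(m, m + H]` contains at least `k` primes, and every `n ∈ M` is a primitive root modulo every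
prime in it. -/
def Str (k H : ℕ) (M : Finset ℤ) (m : ℕ) : Prop :=
  k ≤ #{p ∈ Ioc m (m + H) | p.Prime} ∧
    ∀ p ∈ Ioc m (m + H), p.Prime → ∀ n ∈ M, orderOf (n : ZMod p) = p - 1

open Classical in
/-- the number of the `1 ≤ m ≤ x` with `Str k H M m` -/
noncomputable def count (k H : ℕ) (M : Finset ℤ) (x : ℕ) : ℕ := #{m ∈ Icc 1 x | Str k H M m}

/-- multiplicative independence of a finite set -/
def Independent (M : Finset ℤ) : Prop :=
  ∀ c : ℤ → ℤ, ∏ n ∈ M, (n : ℚ) ^ (c n) = 1 → ∀ n ∈ M, c n = 0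

/-- `n` is none of `b²`, `- b²`, `2 b²`, `- 2 b²` -/
def Admissible (n : ℤ) : Prop := ∀ b : ℤ, n ≠ b ^ 2 ∧ n ≠ -b ^ 2 ∧ n ≠ 2 * b ^ 2 ∧ n ≠ -2 * b ^ 2

theorem Admissible.ns {n : ℤ} (h : Admissible n) : Pool.Agent.J4H36.ST.NS n := by
  refine ⟨?_, ?_, ?_, ?_⟩
  · rintro ⟨b, hb⟩
    exact (h b).1 (by rw [hb]; ring)
  · rintro ⟨b, hb⟩
    exact (h b).2.1 (by linarith [sq b])
  · rintro ⟨b, hb⟩
    obtain ⟨c, rfl⟩ : (2 : ℤ) ∣ b := Int.prime_two.dvd_of_dvd_pow (n := 2) ⟨n, by rw [sq]; exact hb.symm⟩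
    exact (h c).2.2.1 (by nlinarith)
  · rintro ⟨b, hb⟩
    obtain ⟨c, rfl⟩ : (2 : ℤ) ∣ b := Int.prime_two.dvd_of_dvd_pow (n := 2) ⟨-n, by
      rw [sq, ← hb]; ring⟩
    exact (h c).2.2.2 (by nlinarith)

theorem count_eq (k H : ℕ) (M : Finset ℤ) (x : ℕ) :
    count k H M x = Pool.Agent.J4H36.ST.cntS k H M x := rfl

theorem result (k : ℕ) (hk : 1 ≤ k) : ∃ B κ : ℕ,
    -- (1) sets of odd primes
    (∀ P : Finset ℤ, (∀ p ∈ P, Prime p ∧ 2 < p) → ∃ H x₀ : ℕ, ∀ x : ℕ, x₀ ≤ x →
      ∃ E ⊆ P, #E ≤ B ∧ (x : ℝ) / Real.log x ^ κ ≤ (count k H (P \ E) x : ℝ)) ∧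
    -- (2) independent sets of common non-residues
    (∀ M : Finset ℤ, Independent M → ∀ q : ℕ, q.Prime → q % 24 = 17 →
      (∀ n ∈ M, ¬ IsSquare ((n : ℤ) : ZMod q)) → ∃ H x₀ : ℕ, ∀ x : ℕ, x₀ ≤ x →
        ∃ E ⊆ M, #E ≤ B ∧ (x : ℝ) / Real.log x ^ κ ≤ (count k H (M \ E) x : ℝ)) ∧
    -- (3) the single elements of a finite set
    (∀ M : Finset ℤ, Independent M → (∀ n ∈ M, Admissible n) → ∃ H x₀ : ℕ, ∀ x : ℕ, x₀ ≤ x →
        ∃ E ⊆ M, #E ≤ B ∧ ∀ n ∈ M \ E, (x : ℝ) / Real.log x ^ κ ≤ (count k H {n} x : ℝ)) ∧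
    -- (4) arbitrary sets
    (∀ M : Set ℤ, (∀ F : Finset ℤ, (F : Set ℤ) ⊆ M → Independent F) → (∀ n ∈ M, Admissible n) →
        ∃ E : Finset ℤ, (E : Set ℤ) ⊆ M ∧ #E ≤ B ∧ ∀ n ∈ M, n ∉ E →
          ∃ H : ℕ, ∀ y : ℕ, ∃ x : ℕ, y ≤ x ∧ (x : ℝ) / Real.log x ^ κ ≤ (count k H {n} x : ℝ)) := by
  obtain ⟨B, κ, hA, hB, hC⟩ := Pool.Agent.J4H36.ST.final k hk
  refine ⟨B, κ, ?_, hA, fun M hM hMa => hB M hM fun n hn => (hMa n hn).ns,
    fun M hM hMa => hC M hM fun n hn => (hMa n hn).ns⟩
  intro P hP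
  obtain ⟨P', hP', rfl⟩ : ∃ P' : Finset ℕ, (∀ p ∈ P', p.Prime ∧ p ≠ 2) ∧
      P'.image (fun p : ℕ => (p : ℤ)) = P := by
    refine ⟨P.image Int.natAbs, ?_, ?_⟩
    · intro p hp
      rw [mem_image] at hp
      obtain ⟨a, ha, rfl⟩ := hp
      obtain ⟨h1, h2⟩ := hP a ha
      exact ⟨Int.prime_iff_natAbs_prime.1 h1, by omega⟩
    · ext a
      simp only [mem_image, exists_exists_and_eq_and]
      constructor
      · rintro ⟨b, hb, rfl⟩
        have := (hP b hb).2
        rwa [show ((b.natAbs : ℕ) : ℤ) = b by omega]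
      · intro ha
        have := (hP a ha).2
        exact ⟨a, ha, by omega⟩
  obtain ⟨q, hq, hq24, hqP⟩ := Pool.Agent.J4H36.ST.q_exists P' hP'
  refine hA _ (Pool.Agent.J4H36.ST.MI_primes P' fun p hp => (hP' p hp).1) q hq hq24 ?_
  intro a ha
  rw [mem_image] at ha
  obtain ⟨p, hp, rfl⟩ := ha
  exact hqP p hp

end Pool.Agent.Results.MP_991e92_nt.StringsForAlmostAllBases
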