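import Pool.Agent.J4H77.AR.Sum
import Pool.Agent.N368.TS.Wel

/-!
# Artin's primitive root conjecture with the square root of the expected number as the error, for several bases and at
# several consecutive primes at once, for almost all members of families along thin sequences of parameter vectors

Let `v(n) = (⌊P₁(n)⌋, ..., ⌊P_r(n)⌋)`, where the `P_l` are generalised polynomials (finite sums of real powers with real
coefficients) whose leading exponents are positive, not integers and distinct, with positive leading coefficients; for instance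
`v(n) = ⌊α n ^ c⌋`, `c > 0` not an integer, for `r = 1`. The bases are the values at `v(n)` of arbitrary polynomials in `r`
variables; in particular the numbers `d_j G_j(L_j(v(n))) ^ 2` with nonzero integers `d_j` (for instance squarefree
`d_j ≡ 1 mod 4`, as in the problem), polynomials `G_j` with a simple complex zero and linearly independent affine forms `L_j`.

For all `N < n ≤ 2 N` with at most `C N ^ (1 - κ)` exceptions the number of the `k < K`, `K ≤ N ^ κ`, for which the `j`-th base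
has a given index modulo the prime with the number `k + i`, for all `i < s` and all `j`, is the expected number `S` up to
`C max (1, S) ^ (1 / 2) K ^ δ (1 + log N)`. For the bases `d_j G_j(L_j(v)) ^ 2` and primitive roots `S` is the sum of the
products of the densities `φ(p - 1) / (p - 1) (1 - (d_j / p))` up to `C' K ^ (1 / 2 + δ)`. For one base and one prime this gives
the density of the problem, at every `x` between a constant times `(1 + log N) ^ B`, `B > 2`, and `N ^ κ`.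

From Mathlib: `⌊y⌋`: the integer part of `y`; `Nat.nth Nat.Prime k`: the prime with the index `k`, starting with `k = 0`;
`MvPolynomial.eval t f`: the value of the polynomial `f` at `t`.

Method: the vectors `v(n)`, `N < n ≤ 2N`, are uniformly distributed in the residue classes modulo all integers up to a power of
`N`, with a power saving (`Pool.Agent.N666.VE`, `Pool.Agent.N666.TM`). The high moments of sums of functions of the residues
modulo coprime integers are bounded in terms of the variance (`Pool.Agent.N368.TS.Var`). The mean values are computed by Weil's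
bound for character sums over the values of a polynomial (`Pool.Agent.R318.PR`), the main term is from helper730.
-/

set_option autoImplicit false

namespace Pool.Agent.Results.MP_991e92_nt.ThinParameterFamilies

open Finset
open Pool.Agent.N368.TS (av PerV)
open Pool.Agent.R459.Eq (ind cc cc_mem)
open Pool.Agent.J4H77.AR (fn)

/-- The function `∑ t ∈ F, a t * x ^ t` has the leading exponent `c`, which is positive and not an integer, with a
positive coefficient. -/
def Admissible (F : Finset ℝ) (a : ℝ → ℝ) (c : ℝ) : Prop :=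
  c ∈ F ∧ (∀ t ∈ F, t ≤ c) ∧ 0 < c ∧ (∀ m : ℕ, c ≠ m) ∧ 0 < a c

/-- The vector of the integer parts of the values at `n`. -/
noncomputable def values {r : ℕ} (F : Fin r → Finset ℝ) (a : Fin r → ℝ → ℝ) (n : ℕ) : Fin r → ℤ :=
  fun l => ⌊∑ t ∈ F l, a l t * (n : ℝ) ^ t⌋

/-- The integer `n` is prime to the prime number `p`, and the subgroup generated by its residue class has the index `t` in the
group of the residues. For `t = 1`: `n` is a primitive root modulo `p`. -/
def Index (t p : ℕ) (n : ℤ) : Prop := orderOf (n : ZMod p) * t = p - 1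

open Classical in
/-- The number of the `k < K` in `D` such that for all `i < s` and all `j` the index of the base `B j` modulo the prime with the
number `k + i` is `t i j` (the primes are numbered from `0`). For `s = m = 1`, `t = 1`, `D = ℕ` and `K = π(x)` this is the number
of the primes `p ≤ x` with the primitive root `B 0`. -/
noncomputable def count {s m : ℕ} (B : Fin m → ℤ) (t : Fin s → Fin m → ℕ) (D : Set ℕ) (K : ℕ) : ℕ :=
  ((range K).filter (fun k => k ∈ D ∧ ∀ (i : Fin s) (j : Fin m), Index (t i j) (Nat.nth Nat.Prime (k + i)) (B j))).card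

open Classical in
/-- The proportion of the vectors of residues `τ` modulo `p` for which the index of `A j (τ)` modulo `p` is `t j` for all `j`. -/
noncomputable def proportion {r m : ℕ} (A : Fin m → MvPolynomial (Fin r) ℤ) (p : ℕ) (t : Fin m → ℕ) : ℝ :=
  ((Fintype.piFinset (fun _ : Fin r => range p)).filter (fun τ => ∀ j,
    Index (t j) p (MvPolynomial.eval (fun l => (τ l : ℤ)) (A j)))).card / (p : ℝ) ^ r

open Classical in
/-- The expected number: the sum over the `k < K` in `D` of the product of the proportions at the `s` primes. -/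
noncomputable def model {r s m : ℕ} (A : Fin m → MvPolynomial (Fin r) ℤ) (t : Fin s → Fin m → ℕ) (D : Set ℕ) (K : ℕ) : ℝ :=
  ∑ k ∈ (range K).filter (fun k => k ∈ D), ∏ i : Fin s, proportion A (Nat.nth Nat.Prime (k + i)) (t i)

/-- The density of the primitive roots of the form `d x²` modulo `p`: it is `0` if `d` is a square modulo `p` and
`2 φ(p - 1) / (p - 1)` if not (for odd primes `p` which do not divide `d`). -/
noncomputable def g (d : ℤ) (p : ℕ) : ℝ := (Nat.totient (p - 1) : ℝ) / ((p - 1 : ℕ) : ℝ) * (1 - (jacobiSym d p : ℝ))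

open Classical in
/-- The sum over the `k < K` in `D` of the products of the densities for all `d j` and the `s` primes. -/
noncomputable def model₂ {m : ℕ} (s : ℕ) (d : Fin m → ℤ) (D : Set ℕ) (K : ℕ) : ℝ :=
  ∑ k ∈ (range K).filter (fun k => k ∈ D), ∏ i : Fin s, ∏ j, g (d j) (Nat.nth Nat.Prime (k + i))

/-- the number of primes `p ≤ x` modulo which `n` is a primitive root -/
noncomputable def P (n : ℤ) (x : ℕ) : ℕ :=
  ((range (x + 1)).filter (fun p : ℕ => p.Prime ∧ orderOf (n : ZMod p) = p - 1)).card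

/-- the density of Q1 for integers with squarefree part `D`:
`(1 - μ(|D|) ∏_{q ∣ D} 1 / (q² - q - 1)) ∏_p (1 - 1 / (p (p - 1)))` -/
noncomputable def density (D : ℤ) : ℝ :=
  (1 - ((ArithmeticFunction.moebius D.natAbs : ℤ) : ℝ) *
      ∏ q ∈ D.natAbs.primeFactors, (1 / ((q : ℝ) ^ 2 - (q : ℝ) - 1))) *
    ∏' p : Nat.Primes, (1 - 1 / (((p : ℕ) : ℝ) * (((p : ℕ) : ℝ) - 1)))

theorem eval_congr {r : ℕ} (f : MvPolynomial (Fin r) ℤ) (p : ℕ) {c d : Fin r → ℤ} (h : ∀ l, (p : ℤ) ∣ c l - d l) :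
    (p : ℤ) ∣ MvPolynomial.eval c f - MvPolynomial.eval d f := by
  induction f using MvPolynomial.induction_on with
  | C z => simp
  | add f g hf hg =>
    rw [map_add, map_add]
    have e : MvPolynomial.eval c f + MvPolynomial.eval c g - (MvPolynomial.eval d f + MvPolynomial.eval d g) =
        (MvPolynomial.eval c f - MvPolynomial.eval d f) + (MvPolynomial.eval c g - MvPolynomial.eval d g) := by ring
    rw [e]
    exact dvd_add hf hg
  | mul_X f i hf =>
    rw [map_mul, map_mul, MvPolynomial.eval_X, MvPolynomial.eval_X]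
    have e : MvPolynomial.eval c f * c i - MvPolynomial.eval d f * d i =
        (MvPolynomial.eval c f - MvPolynomial.eval d f) * c i + MvPolynomial.eval d f * (c i - d i) := by ring
    rw [e]
    exact dvd_add (hf.mul_right _) ((h i).mul_left _)

/-- The property with its parameter. -/
def Pr (u : ℕ) (p : ℕ) (A _B : ℤ) : Prop := Index u p A

theorem index_congr (t p : ℕ) {A A' : ℤ} (h : (p : ℤ) ∣ A - A') : Index t p A ↔ Index t p A' := by
  unfold Index
  have h1 : (A : ZMod p) = (A' : ZMod p) := by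
    rw [← sub_eq_zero, ← Int.cast_sub]
    exact (ZMod.intCast_zmod_eq_zero_iff_dvd _ p).2 h
  rw [h1]

theorem pr_congr (u : ℕ) (p : ℕ) (A A' B B' : ℤ) (hA : (p : ℤ) ∣ A - A') (_hB : (p : ℤ) ∣ B - B') :
    Pr u p A B ↔ Pr u p A' B' := index_congr u p hA

theorem rg_card (X : ℕ) (hX : 1 ≤ X) : (range (X + 1)).card ≤ 2 * X ^ 2 := by
  rw [card_range]
  nlinarith

theorem rg_spec (u : ℕ) (X : ℕ) :
    (∃ u' ∈ range (X + 1), ∀ p : ℕ, p.Prime → p ≤ X → ∀ A B, (Pr u p A B ↔ Pr u' p A B)) ∨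
      (∀ p : ℕ, p.Prime → p ≤ X → ∀ A B, ¬ Pr u p A B) := by
  rcases Nat.lt_or_ge X u with h | h
  · right
    intro p hp hpX A B h1
    unfold Pr Index at h1
    have h2 := hp.two_le
    rcases Nat.eq_zero_or_pos (orderOf (A : ZMod p)) with h3 | h3
    · rw [h3, zero_mul] at h1
      omega
    · have h4 : 1 * u ≤ orderOf (A : ZMod p) * u := Nat.mul_le_mul_right _ h3
      omega
  · left
    exact ⟨u, mem_range.2 (by omega), fun p _ _ A B => Iff.rfl⟩

section core

variable {r m s : ℕ}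

open Classical in
/-- the basic estimate for one family of polynomial functions -/
def Core (F : Fin r → Finset ℝ) (a : Fin r → ℝ → ℝ) (m s : ℕ) (δ κ C : ℝ) : Prop :=
  ∀ A : Fin m → (Fin r → ℤ) → ℤ,
    (∀ (p : ℕ) (j : Fin m) (c d : Fin r → ℤ), (∀ l, (p : ℤ) ∣ c l - d l) → (p : ℤ) ∣ A j c - A j d) →
    ∀ N : ℕ, 1 ≤ N → ∀ W : Finset (Set ℕ), (W.card : ℝ) ≤ (N : ℝ) ^ κ →
    ∃ E : Finset ℕ, (E.card : ℝ) ≤ C * (N : ℝ) ^ (1 - κ) ∧
      ∀ n ∈ Ioc N (2 * N), n ∉ E → ∀ D ∈ W, ∀ K : ℕ, (K : ℝ) ≤ (N : ℝ) ^ κ → ∀ t : Fin s → Fin m → ℕ,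
        |(count (fun j => A j (values F a n)) t D K : ℝ) -
          ∑ k ∈ (range K).filter (fun k => k ∈ D), ∏ i : Fin s, av (Nat.nth Nat.Prime (k + i)) (fun τ : Fin r → ℤ =>
            if ∀ j, Index (t i j) (Nat.nth Nat.Prime (k + i)) (A j τ) then 1 else 0)| ≤
          C * (√(max 1 (∑ k ∈ (range K).filter (fun k => k ∈ D), ∏ i : Fin s, av (Nat.nth Nat.Prime (k + i))
            (fun τ : Fin r → ℤ => if ∀ j, Index (t i j) (Nat.nth Nat.Prime (k + i)) (A j τ) then 1 else 0))) *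
              (K : ℝ) ^ δ * (1 + Real.log N))

theorem core (hr : 1 ≤ r) (hs : 1 ≤ s) (F : Fin r → Finset ℝ) (a : Fin r → ℝ → ℝ) (c : Fin r → ℝ)
    (h : ∀ l, Admissible (F l) (a l) (c l)) (hc : Function.Injective c) (m : ℕ) (δ : ℝ) (hδ : 0 < δ) :
    ∃ κ C : ℝ, 0 < κ ∧ 1 ≤ C ∧ Core F a m s δ κ C := by
  have : Nonempty (Fin r) := ⟨⟨0, hr⟩⟩
  obtain ⟨⟨ρ, σ, C₀, hv⟩, -⟩ := Pool.Agent.N368.TS.fl_pev h hc
  obtain ⟨κ, C, h1, _, h3, H⟩ := Pool.Agent.N368.TS.props3 hv m s hs δ hδ ℕ Pr pr_congr (fun X => range (X + 1)) 2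
    rg_card rg_spec
  refine ⟨κ, C, h1, h3, fun A hA N hN W hW => ?_⟩
  obtain ⟨E, hE1, hE2⟩ := H A A hA hA N hN W hW
  refine ⟨E, hE1, fun n hn hnE D hD K hK t => ?_⟩
  exact hE2 n hn hnE D hD K hK t

end core

theorem g_eq (d : ℤ) (p : ℕ) : g d p = cc d p := rfl

lemma av_fn {r m : ℕ} (d : Fin m → ℤ) (G : Fin m → Polynomial ℤ) (c₀ : Fin m → ℤ) (M : Fin m → Fin r → ℤ) (p : ℕ)
    (inst : DecidablePred fun τ : Fin r → ℤ => ∀ j, Index 1 p (d j * ((G j).eval (c₀ j + ∑ l, M j l * τ l)) ^ 2)) :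
    av p (fun τ : Fin r → ℤ => if ∀ j, Index 1 p (d j * ((G j).eval (c₀ j + ∑ l, M j l * τ l)) ^ 2) then (1 : ℝ) else 0) =
      av p (fn d G c₀ M p) := by
  congr 1
  funext τ
  unfold fn ind
  by_cases h : ∀ j, Index 1 p (d j * ((G j).eval (c₀ j + ∑ l, M j l * τ l)) ^ 2)
  · rw [if_pos h]
    symm
    refine prod_eq_one fun j _ => if_pos ?_
    have := h j
    unfold Index at this
    rwa [mul_one] at this
  · rw [if_neg h]
    push Not at h
    obtain ⟨j, hj⟩ := h
    symm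
    refine prod_eq_zero (mem_univ j) (if_neg ?_)
    intro h1
    apply hj
    unfold Index
    rwa [mul_one]

/-- the counts for the bases `d_j G_j(L_j(v)) ^ 2` -/
theorem two_of_core {r m s : ℕ} {F : Fin r → Finset ℝ} {a : Fin r → ℝ → ℝ} {δ κ C : ℝ} (hδ : 0 < δ) (hC : 1 ≤ C)
    (hcore : Core F a m s δ κ C) (d : Fin m → ℤ) (hd : ∀ j, d j ≠ 0) (G : Fin m → Polynomial ℤ)
    (hG : ∀ j, ∃ z : ℂ, Polynomial.aeval z (G j) = 0 ∧ Polynomial.aeval z (Polynomial.derivative (G j)) ≠ 0)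
    (c₀ : Fin m → ℤ) (M : Fin m → Fin r → ℤ) (hM : LinearIndependent ℤ M) :
    ∃ C' : ℝ, 0 < C' ∧ ∀ N : ℕ, 1 ≤ N → ∀ W : Finset (Set ℕ), (W.card : ℝ) ≤ (N : ℝ) ^ κ →
      ∃ E : Finset ℕ, (E.card : ℝ) ≤ C * (N : ℝ) ^ (1 - κ) ∧
        ∀ n ∈ Ioc N (2 * N), n ∉ E → ∀ D ∈ W, ∀ K : ℕ, (K : ℝ) ≤ (N : ℝ) ^ κ →
          |(count (s := s) (fun j => d j * ((G j).eval (c₀ j + ∑ l, M j l * values F a n l)) ^ 2) (fun _ _ => 1) D K : ℝ) -
            model₂ s d D K| ≤ C' * ((K : ℝ) ^ (1 / 2 + δ) * (1 + Real.log N)) := by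
  classical
  obtain ⟨C₂, hC₂, hsum⟩ := Pool.Agent.J4H77.AR.sum_close d hd G hG c₀ M hM s δ hδ
  refine ⟨C + C₂, by linarith, fun N hN W hW => ?_⟩
  obtain ⟨E, hE1, hE2⟩ := hcore (fun j τ => d j * ((G j).eval (c₀ j + ∑ l, M j l * τ l)) ^ 2) (by
    intro p j c c' hcc
    have h1 : (p : ℤ) ∣ (c₀ j + ∑ l, M j l * c l) - (c₀ j + ∑ l, M j l * c' l) := by
      have e : (c₀ j + ∑ l, M j l * c l) - (c₀ j + ∑ l, M j l * c' l) = ∑ l, M j l * (c l - c' l) := by
        simp only [mul_sub, sum_sub_distrib]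
        ring
      rw [e]
      exact dvd_sum fun l _ => (hcc l).mul_left _
    have h2 := Pool.Agent.R318.PR.eval_dvd (G j) p _ _ h1
    have h3 : (p : ℤ) ∣ ((G j).eval (c₀ j + ∑ l, M j l * c l)) ^ 2 - ((G j).eval (c₀ j + ∑ l, M j l * c' l)) ^ 2 := by
      rw [sq_sub_sq]
      exact h2.mul_left _
    have e : d j * ((G j).eval (c₀ j + ∑ l, M j l * c l)) ^ 2 - d j * ((G j).eval (c₀ j + ∑ l, M j l * c' l)) ^ 2 =
      d j * (((G j).eval (c₀ j + ∑ l, M j l * c l)) ^ 2 - ((G j).eval (c₀ j + ∑ l, M j l * c' l)) ^ 2) := by ring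
    rw [e]
    exact h3.mul_left _) N hN W hW
  refine ⟨E, hE1, fun n hn hnE D hD K hK => ?_⟩
  have hNr : (1 : ℝ) ≤ N := by exact_mod_cast hN
  have hlog : 0 ≤ Real.log N := Real.log_nonneg hNr
  rcases Nat.eq_zero_or_pos K with hK0 | hK0
  · subst hK0
    have e1 : count (s := s) (fun j => d j * ((G j).eval (c₀ j + ∑ l, M j l * values F a n l)) ^ 2) (fun _ _ => 1) D 0 = 0 := by
      unfold count
      simp
    have e2 : model₂ s d D 0 = 0 := by
      unfold model₂
      simp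
    rw [e1, e2, Nat.cast_zero, sub_zero, abs_zero]
    positivity
  have h4 := hE2 n hn hnE D hD K hK (fun _ _ => 1)
  set T : ℝ := ∑ k ∈ (range K).filter (fun k => k ∈ D), ∏ i : Fin s, av (Nat.nth Nat.Prime (k + i)) (fun τ : Fin r → ℤ =>
            if ∀ j, Index 1 (Nat.nth Nat.Prime (k + i)) (d j * ((G j).eval (c₀ j + ∑ l, M j l * τ l)) ^ 2) then 1 else 0)
    with hT
  have hK1 : (1 : ℝ) ≤ K := by exact_mod_cast hK0
  have hKp : (0 : ℝ) < K := by linarith
  have hT2 : T = ∑ k ∈ (range K).filter (fun k => k ∈ D), ∏ i : Fin s,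
      av (Pool.Agent.J4H77.AR.pr (k + i)) (fn d G c₀ M (Pool.Agent.J4H77.AR.pr (k + i))) := by
    rw [hT]
    refine sum_congr rfl fun k _ => prod_congr rfl fun i _ => ?_
    exact av_fn d G c₀ M _ _
  have hTK : T ≤ K := by
    rw [hT2]
    calc _ ≤ ∑ _k ∈ (range K).filter (fun k => k ∈ D), (1 : ℝ) := by
          refine sum_le_sum fun k _ => prod_le_one (fun i _ => ?_) fun i _ => ?_
          · exact (Pool.Agent.J4H77.AR.av_mem _ _ (Pool.Agent.J4H77.AR.fn_mem d G c₀ M _)).1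
          · exact (Pool.Agent.J4H77.AR.av_mem _ _ (Pool.Agent.J4H77.AR.fn_mem d G c₀ M _)).2
      _ ≤ K := by
          rw [sum_const, nsmul_eq_mul, mul_one]
          have h5 := card_filter_le (range K) (fun k => k ∈ D)
          rw [card_range] at h5
          exact_mod_cast h5
  have h5 : C * (√(max 1 T) * (K : ℝ) ^ δ * (1 + Real.log N)) ≤ C * ((K : ℝ) ^ (1 / 2 + δ) * (1 + Real.log N)) := by
    refine mul_le_mul_of_nonneg_left ?_ (by linarith)
    refine mul_le_mul_of_nonneg_right ?_ (by linarith)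
    rw [Real.rpow_add hKp, ← Real.sqrt_eq_rpow]
    exact mul_le_mul_of_nonneg_right (Real.sqrt_le_sqrt (max_le hK1 hTK)) (by positivity)
  have h6 := hsum ((range K).filter (fun k => k ∈ D)) K hK0 (filter_subset _ _)
  rw [← hT2] at h6
  have h7 : (∑ k ∈ (range K).filter (fun k => k ∈ D), ∏ i : Fin s, ∏ j, cc (d j) (Pool.Agent.J4H77.AR.pr (k + i))) =
      model₂ s d D K := by
    unfold model₂
    refine sum_congr ?_ fun k _ => rfl
    congr!
  rw [h7] at h6
  have h8 : C₂ * (K : ℝ) ^ (1 / 2 + δ) ≤ C₂ * ((K : ℝ) ^ (1 / 2 + δ) * (1 + Real.log N)) := by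
    refine mul_le_mul_of_nonneg_left ?_ hC₂
    have : 0 ≤ (K : ℝ) ^ (1 / 2 + δ) := by positivity
    nlinarith
  calc |(count (s := s) (fun j => d j * ((G j).eval (c₀ j + ∑ l, M j l * values F a n l)) ^ 2) (fun _ _ => 1) D K : ℝ) -
            model₂ s d D K| ≤ |(count (s := s) (fun j => d j * ((G j).eval (c₀ j + ∑ l, M j l * values F a n l)) ^ 2)
            (fun _ _ => 1) D K : ℝ) - T| + |T - model₂ s d D K| := abs_sub_le _ _ _
    _ ≤ C * ((K : ℝ) ^ (1 / 2 + δ) * (1 + Real.log N)) + C₂ * ((K : ℝ) ^ (1 / 2 + δ) * (1 + Real.log N)) :=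
        add_le_add (h4.trans h5) (h6.trans h8)
    _ = _ := by ring

/-- the number of the primes with a given primitive root -/
lemma count_eq (B : Fin 1 → ℤ) (x : ℕ) :
    count (s := 1) B (fun _ _ => 1) Set.univ (Nat.primeCounting x) = P (B 0) x := by
  classical
  have h := Pool.Agent.J4H77.AR.sum_primes (fun p => if orderOf (B 0 : ZMod p) = p - 1 then (1 : ℝ) else 0) x
  have e1 : (count (s := 1) B (fun _ _ => 1) Set.univ (Nat.primeCounting x) : ℝ) =
      ∑ k ∈ range (Nat.primeCounting x), (if orderOf (B 0 : ZMod (Pool.Agent.J4H77.AR.pr k)) =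
        Pool.Agent.J4H77.AR.pr k - 1 then (1 : ℝ) else 0) := by
    unfold count
    rw [card_filter, Nat.cast_sum]
    refine sum_congr rfl fun k _ => ?_
    have e : (k ∈ Set.univ ∧ ∀ (i : Fin 1) (j : Fin 1), Index 1 (Nat.nth Nat.Prime (k + i)) (B j)) ↔
        orderOf (B 0 : ZMod (Pool.Agent.J4H77.AR.pr k)) = Pool.Agent.J4H77.AR.pr k - 1 := by
      unfold Index
      constructor
      · rintro ⟨-, h1⟩
        have := h1 0 0
        rw [mul_one] at this
        simpa using this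
      · intro h1
        refine ⟨Set.mem_univ _, fun i j => ?_⟩
        rw [Subsingleton.elim i 0, Subsingleton.elim j 0, mul_one]
        simpa using h1
    by_cases h1 : orderOf (B 0 : ZMod (Pool.Agent.J4H77.AR.pr k)) = Pool.Agent.J4H77.AR.pr k - 1
    · rw [if_pos h1, if_pos (e.2 h1), Nat.cast_one]
    · rw [if_neg h1, if_neg (fun h2 => h1 (e.1 h2)), Nat.cast_zero]
  have e2 : (P (B 0) x : ℝ) = ∑ p ∈ (range (x + 1)).filter Nat.Prime,
      (if orderOf (B 0 : ZMod p) = p - 1 then (1 : ℝ) else 0) := by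
    unfold P
    rw [← filter_filter, card_filter, Nat.cast_sum]
    refine sum_congr rfl fun p _ => ?_
    split_ifs <;> simp
  have h2 : (count (s := 1) B (fun _ _ => 1) Set.univ (Nat.primeCounting x) : ℝ) = (P (B 0) x : ℝ) := by
    rw [e1, e2]
    exact h
  exact_mod_cast h2

lemma model₂_eq (d : Fin 1 → ℤ) (x : ℕ) :
    model₂ 1 d Set.univ (Nat.primeCounting x) = ∑ p ∈ (range (x + 1)).filter Nat.Prime, cc (d 0) p := by
  classical
  rw [← Pool.Agent.J4H77.AR.sum_primes (fun p => cc (d 0) p) x]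
  unfold model₂
  have e : (range (Nat.primeCounting x)).filter (fun k => k ∈ (Set.univ : Set ℕ)) = range (Nat.primeCounting x) := by
    apply filter_true_of_mem
    intro k _
    exact Set.mem_univ _
  refine sum_congr (by convert e using 2) fun k _ => ?_
  simp [g_eq]

/-- the main term -/
lemma main_term (D : ℤ) (hD : Squarefree D) (hD1 : D % 4 = 1) (hD2 : D ≠ 1) (ε : ℝ) (hε : 0 < ε) :
    ∃ X : ℕ, ∀ x : ℕ, X ≤ x →
      |∑ p ∈ (range (x + 1)).filter Nat.Prime, cc D p - density D * Nat.primeCounting x| ≤ ε * Nat.primeCounting x := by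
  have hD0 : D ≠ 0 := by rintro rfl; norm_num at hD1
  have hM : 2 * D.natAbs ≠ 0 := mul_ne_zero two_ne_zero (Int.natAbs_ne_zero.2 hD0)
  obtain ⟨X₁, h1⟩ := Pool.Agent.R318.PR.avg_cc D hD hD1 hD2 (2 * D.natAbs) hM (Dvd.intro _ rfl) (Dvd.intro_left _ rfl)
    (ε / 2) (by positivity)
  obtain ⟨X₂, _, h2⟩ := Pool.Agent.R459.Eq.small_ev (2 * ((2 * D.natAbs).primeFactors.card : ℝ)) (ε / 2) (by positivity)
  refine ⟨max 1 (max X₁ X₂), fun x hx => ?_⟩
  have hx0 : 1 ≤ x := (le_max_left _ _).trans hx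
  have hx1 : X₁ ≤ x := ((le_max_left _ _).trans (le_max_right _ _)).trans hx
  have hx2 : X₂ ≤ x := ((le_max_right _ _).trans (le_max_right _ _)).trans hx
  have h3 := h1 x hx1
  have h4 := h2 x hx2
  have h5 := Pool.Agent.R318.PR.GP_sum (2 * D.natAbs) hM x ((range (x + 1)).filter Nat.Prime) (cc D)
    (fun p => (cc_mem D p).1) (fun p => (cc_mem D p).2) (by
      intro p hp
      rw [Pool.Agent.R318.PR.mem_GP] at hp
      rw [mem_filter, mem_range]
      exact ⟨by omega, hp.2.1⟩) (by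
      intro p hp
      rw [mem_filter, mem_range] at hp
      exact ⟨by omega, hp.2⟩)
  have h6 : 0 ≤ Real.log x := Real.log_nonneg (by exact_mod_cast hx0)
  have h7 := abs_sub_le (∑ p ∈ (range (x + 1)).filter Nat.Prime, cc D p)
    (∑ p ∈ Pool.Agent.R318.PR.GP (2 * D.natAbs) x, cc D p) (density D * Nat.primeCounting x)
  have h8 : density D = Pool.Agent.H730R2.AA.dens D := rfl
  rw [h8] at h7 ⊢
  rw [abs_sub_comm] at h5
  linarith

/-- the number of primes is larger than any power with an exponent less than one -/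
lemma pi_ge (θ : ℝ) (hθ : θ < 1) : ∃ X : ℕ, ∀ x : ℕ, X ≤ x → (x : ℝ) ^ θ ≤ (Nat.primeCounting x : ℝ) := by
  have h1 := isLittleO_log_rpow_atTop (show 0 < 1 - θ by linarith)
  have h2 := h1.bound (show (0 : ℝ) < 1 / 10 by norm_num)
  obtain ⟨X, hX⟩ := Filter.eventually_atTop.1 h2
  refine ⟨max 2 ⌈X⌉₊, fun x hx => ?_⟩
  have hx2 : 2 ≤ x := (le_max_left _ _).trans hx
  have hxX : X ≤ x := (Nat.le_ceil X).trans (by exact_mod_cast (le_max_right _ _).trans hx)
  have hx2' : (2 : ℝ) ≤ x := by exact_mod_cast hx2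
  have hx0 : (0 : ℝ) < x := by linarith
  have hlog : 0 < Real.log x := Real.log_pos (by linarith)
  have h3 := hX x hxX
  rw [Real.norm_of_nonneg hlog.le, Real.norm_of_nonneg (by positivity)] at h3
  refine le_trans ?_ (Pool.Agent.H730R2.AA.MTLib.pi_lower x hx2)
  rw [le_div_iff₀ (by positivity)]
  calc (x : ℝ) ^ θ * (10 * Real.log x) ≤ (x : ℝ) ^ θ * (10 * (1 / 10 * (x : ℝ) ^ (1 - θ))) := by gcongr
    _ = (x : ℝ) ^ θ * (x : ℝ) ^ (1 - θ) := by ring
    _ = x := by
        rw [← Real.rpow_add hx0, add_sub_cancel, Real.rpow_one]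

/-- the density of the problem -/
theorem three_of_core {r : ℕ} {F : Fin r → Finset ℝ} {a : Fin r → ℝ → ℝ} {B κ C : ℝ} (hB : 2 < B) (hκ : 0 < κ) (hC : 1 ≤ C)
    (hcore : Core F a 1 1 ((1 / 2 - 1 / B) / 2) κ C) (D : ℤ) (hD : Squarefree D) (hD1 : D % 4 = 1) (hD2 : D ≠ 1)
    (G : Polynomial ℤ) (hG : ∃ z : ℂ, Polynomial.aeval z G = 0 ∧ Polynomial.aeval z (Polynomial.derivative G) ≠ 0)
    (c₀ : ℤ) (M : Fin r → ℤ) (hM : M ≠ 0) (ε : ℝ) (hε : 0 < ε) :
    ∃ X₀ : ℝ, 0 < X₀ ∧ ∀ N : ℕ, 1 ≤ N → ∃ E : Finset ℕ, (E.card : ℝ) ≤ C * (N : ℝ) ^ (1 - κ) ∧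
      ∀ n ∈ Ioc N (2 * N), n ∉ E → ∀ x : ℕ, X₀ * (1 + Real.log N) ^ B ≤ x → (x : ℝ) ≤ (N : ℝ) ^ κ →
        |(P (D * (G.eval (c₀ + ∑ l, M l * values F a n l)) ^ 2) x : ℝ) - density D * Nat.primeCounting x| ≤
          ε * Nat.primeCounting x := by
  have hD0 : D ≠ 0 := by rintro rfl; norm_num at hD1
  have hB0 : 0 < B := by linarith
  obtain ⟨δ, hδ⟩ : ∃ δ : ℝ, δ = (1 / 2 - 1 / B) / 2 := ⟨_, rfl⟩
  rw [← hδ] at hcore
  have hBinv : 1 / B < 1 / 2 := one_div_lt_one_div_of_lt (by norm_num) hB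
  have hBinv0 : 0 < 1 / B := by positivity
  have hδ0 : 0 < δ := by rw [hδ]; linarith
  have hM' : LinearIndependent ℤ (fun _ : Fin 1 => M) := linearIndependent_unique_iff.2 hM
  obtain ⟨C', hC', H⟩ := two_of_core hδ0 hC hcore (fun _ => D) (fun _ => hD0) (fun _ => G) (fun _ => hG) (fun _ => c₀)
    (fun _ => M) hM'
  obtain ⟨X₁, h1⟩ := main_term D hD hD1 hD2 (ε / 2) (by positivity)
  obtain ⟨e, he⟩ : ∃ e : ℝ, e = 1 / 2 - δ := ⟨_, rfl⟩
  have he0 : 0 < e := by rw [he, hδ]; linarith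
  have heB : 1 / B < e := by rw [he, hδ]; linarith
  obtain ⟨X₂, h2⟩ := pi_ge ((1 / B) / e) ((div_lt_one he0).2 heB)
  obtain ⟨X₀, hX₀⟩ : ∃ X₀ : ℝ, X₀ = max ((2 * C' / ε) ^ B) (max (max X₁ 1 : ℕ) (X₂ : ℝ)) := ⟨_, rfl⟩
  have hX1 : (1 : ℝ) ≤ X₀ := by
    rw [hX₀]
    refine le_trans ?_ ((le_max_left _ _).trans (le_max_right _ _))
    exact_mod_cast le_max_right X₁ 1
  refine ⟨X₀, by linarith, fun N hN => ?_⟩
  have hNr : (1 : ℝ) ≤ N := by exact_mod_cast hN
  have hlog : 0 ≤ Real.log N := Real.log_nonneg hNr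
  obtain ⟨E, hE1, hE2⟩ := H N hN {Set.univ} (by
    rw [card_singleton, Nat.cast_one]
    exact Real.one_le_rpow hNr hκ.le)
  refine ⟨E, hE1, fun n hn hnE x hx1 hx2 => ?_⟩
  have hpow : (1 : ℝ) ≤ (1 + Real.log N) ^ B := Real.one_le_rpow (by linarith) hB0.le
  have hX₀x : X₀ ≤ x := by
    refine le_trans ?_ hx1
    exact le_mul_of_one_le_right (by linarith) hpow
  have hxX₁ : X₁ ≤ x := by
    have h3 : ((max X₁ 1 : ℕ) : ℝ) ≤ x := by
      refine le_trans ?_ hX₀x
      rw [hX₀]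
      exact (le_max_left _ _).trans (le_max_right _ _)
    have h4 : max X₁ 1 ≤ x := by exact_mod_cast h3
    exact (le_max_left _ _).trans h4
  have hxX₂ : X₂ ≤ x := by
    have h3 : (X₂ : ℝ) ≤ x := by
      refine le_trans ?_ hX₀x
      rw [hX₀]
      exact (le_max_right _ _).trans (le_max_right _ _)
    exact_mod_cast h3
  have hx0 : (0 : ℝ) < x := by linarith
  obtain ⟨K, hK⟩ : ∃ K : ℕ, K = Nat.primeCounting x := ⟨_, rfl⟩
  have hKx : (K : ℝ) ≤ x := by
    have h3 : K ≤ x := by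
      rw [hK, Nat.primeCounting, Nat.primeCounting', Nat.count_eq_card_filter_range]
      refine le_trans (card_le_card (t := (range (x + 1)).erase 0) ?_) ?_
      · intro p hp
        rw [mem_filter] at hp
        rw [mem_erase]
        exact ⟨hp.2.ne_zero, hp.1⟩
      · rw [card_erase_of_mem (mem_range.2 (by omega)), card_range]
        omega
    exact_mod_cast h3
  have hKbig := h2 x hxX₂
  rw [← hK] at hKbig
  have hKpos : (0 : ℝ) < K := lt_of_lt_of_le (Real.rpow_pos_of_pos hx0 _) hKbig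
  have h3 := hE2 n hn hnE Set.univ (mem_singleton_self _) K (hKx.trans hx2)
  rw [hK, count_eq, model₂_eq, ← hK] at h3
  have h4 := h1 x hxX₁
  rw [← hK] at h4 ⊢
  -- the error
  have h5 : 2 * C' / ε * (1 + Real.log N) ≤ (K : ℝ) ^ e := by
    have h6 : (x : ℝ) ^ (1 / B) ≤ (K : ℝ) ^ e := by
      calc (x : ℝ) ^ (1 / B) = ((x : ℝ) ^ ((1 / B) / e)) ^ e := by
            rw [← Real.rpow_mul hx0.le, div_mul_cancel₀ _ he0.ne']
        _ ≤ (K : ℝ) ^ e := Real.rpow_le_rpow (by positivity) hKbig he0.le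
    refine le_trans ?_ h6
    have h7 : (2 * C' / ε) ^ B * (1 + Real.log N) ^ B ≤ x := by
      refine le_trans (mul_le_mul_of_nonneg_right ?_ (by positivity)) hx1
      rw [hX₀]
      exact le_max_left _ _
    have h8 : 0 ≤ 2 * C' / ε := by positivity
    calc 2 * C' / ε * (1 + Real.log N) = ((2 * C' / ε) ^ B * (1 + Real.log N) ^ B) ^ (1 / B) := by
          rw [← Real.mul_rpow h8 (by linarith), ← Real.rpow_mul (by positivity), mul_one_div_cancel hB0.ne', Real.rpow_one]
      _ ≤ (x : ℝ) ^ (1 / B) := Real.rpow_le_rpow (by positivity) h7 hBinv0.le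
  have h9 : C' * ((K : ℝ) ^ (1 / 2 + δ) * (1 + Real.log N)) ≤ ε / 2 * K := by
    have h10 : (K : ℝ) = (K : ℝ) ^ (1 / 2 + δ) * (K : ℝ) ^ e := by
      rw [← Real.rpow_add hKpos, he]
      ring_nf
      rw [Real.rpow_one]
    have h11 : 0 ≤ (K : ℝ) ^ (1 / 2 + δ) := by positivity
    calc C' * ((K : ℝ) ^ (1 / 2 + δ) * (1 + Real.log N)) =
          ε / 2 * ((K : ℝ) ^ (1 / 2 + δ) * (2 * C' / ε * (1 + Real.log N))) := by field_simp
      _ ≤ ε / 2 * ((K : ℝ) ^ (1 / 2 + δ) * (K : ℝ) ^ e) := by gcongr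
      _ = ε / 2 * K := by rw [← h10]
  have h12 := abs_sub_le (P (D * (G.eval (c₀ + ∑ l, M l * values F a n l)) ^ 2) x : ℝ)
    (∑ p ∈ (range (x + 1)).filter Nat.Prime, cc D p) (density D * K)
  linarith

open Classical in
/-- Let `P₁, ..., P_r`, `r ≥ 1`, be generalised polynomials (finite sums of real powers with real coefficients) whose leading
exponents are positive, not integers and distinct, with positive leading coefficients, and `v(n) = (⌊P₁(n)⌋, ..., ⌊P_r(n)⌋)`.

Let `s ≥ 1`, `m` and `δ > 0` be given. There are `κ > 0` and `C` such that for all `N ≥ 1` and every set `W` of at most `N ^ κ`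
sets of indices:

(1) for all polynomials `A₁, ..., A_m ∈ ℤ[T₁, ..., T_r]`, all `N < n ≤ 2 N` with at most `C N ^ (1 - κ)` exceptions satisfy, for
all `D ∈ W`, all `K ≤ N ^ κ` and all `t i j`: the number of the `k < K` in `D` such that, for all `i < s` and all `j`, the
subgroup generated by `A_j(v(n))` modulo the prime with the number `k + i` has the index `t i j` is the expected number `S`, the
sum of the products of the proportions for the vectors of residues modulo these primes, up to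
`C max (1, S) ^ (1 / 2) K ^ δ (1 + log N)`;

(2) let `d_j` be nonzero integers, `G_j ∈ ℤ[T]` polynomials with a simple complex zero, and `L_j = c_j + ∑ M_(j,l) T_l` affine
forms with integer coefficients whose linear parts are linearly independent, `j ≤ m`. Then there is `C'` such that for all
`N < n ≤ 2 N` with at most `C N ^ (1 - κ)` exceptions, for all `D ∈ W` and all `K ≤ N ^ κ`: the number of the `k < K` in `D` such
that all the `d_j G_j(L_j(v(n))) ^ 2` are primitive roots modulo the primes with the numbers `k, ..., k + s - 1` is the sum of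
the products of the densities `φ(p - 1) / (p - 1) (1 - (d_j / p))` up to `C' K ^ (1 / 2 + δ) (1 + log N)`.

(3) Let `B > 2`. There are `κ > 0` and `C` such that for every squarefree `D ≡ 1 mod 4`, `D ≠ 1`, every polynomial `G ∈ ℤ[T]`
with a simple complex zero, every affine form `L = c + ∑ M_l T_l` which is not constant and every `ε > 0` there is `X₀` such that
for all `N ≥ 1`, all `N < n ≤ 2 N` with at most `C N ^ (1 - κ)` exceptions: for EVERY `x` with
`X₀ (1 + log N) ^ B ≤ x ≤ N ^ κ` the number of the primes `p ≤ x` with the primitive root `D G(L(v(n))) ^ 2` differs from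
`δ(D) π(x)` by at most `ε π(x)`, where `δ(D)` is the density of the problem. -/
theorem result (r : ℕ) (hr : 1 ≤ r) (F : Fin r → Finset ℝ) (a : Fin r → ℝ → ℝ) (c : Fin r → ℝ)
    (h : ∀ l, Admissible (F l) (a l) (c l)) (hc : Function.Injective c) :
    (∀ (m s : ℕ), 1 ≤ s → ∀ δ : ℝ, 0 < δ → ∃ κ C : ℝ, 0 < κ ∧ 0 < C ∧
      (∀ (A : Fin m → MvPolynomial (Fin r) ℤ) (N : ℕ), 1 ≤ N → ∀ W : Finset (Set ℕ), (W.card : ℝ) ≤ (N : ℝ) ^ κ →
        (((Ioc N (2 * N)).filter (fun n : ℕ => ¬ ∀ D ∈ W, ∀ K : ℕ, (K : ℝ) ≤ (N : ℝ) ^ κ → ∀ t : Fin s → Fin m → ℕ,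
          |(count (fun j => MvPolynomial.eval (values F a n) (A j)) t D K : ℝ) - model A t D K| ≤
            C * (√(max 1 (model A t D K)) * (K : ℝ) ^ δ * (1 + Real.log N)))).card : ℝ) ≤ C * (N : ℝ) ^ (1 - κ)) ∧
      ∀ (d : Fin m → ℤ) (G : Fin m → Polynomial ℤ) (c₀ : Fin m → ℤ) (M : Fin m → Fin r → ℤ), (∀ j, d j ≠ 0) →
        (∀ j, ∃ z : ℂ, Polynomial.aeval z (G j) = 0 ∧ Polynomial.aeval z (Polynomial.derivative (G j)) ≠ 0) →
        LinearIndependent ℤ M → ∃ C' : ℝ, 0 < C' ∧ ∀ N : ℕ, 1 ≤ N → ∀ W : Finset (Set ℕ), (W.card : ℝ) ≤ (N : ℝ) ^ κ →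
        (((Ioc N (2 * N)).filter (fun n : ℕ => ¬ ∀ D ∈ W, ∀ K : ℕ, (K : ℝ) ≤ (N : ℝ) ^ κ →
          |(count (s := s) (fun j => d j * ((G j).eval (c₀ j + ∑ l, M j l * values F a n l)) ^ 2) (fun _ _ => 1) D K : ℝ) -
            model₂ s d D K| ≤ C' * ((K : ℝ) ^ (1 / 2 + δ) * (1 + Real.log N)))).card : ℝ) ≤ C * (N : ℝ) ^ (1 - κ)) ∧
    ∀ B : ℝ, 2 < B → ∃ κ C : ℝ, 0 < κ ∧ 0 < C ∧ ∀ D : ℤ, Squarefree D → D % 4 = 1 → D ≠ 1 → ∀ G : Polynomial ℤ,
      (∃ z : ℂ, Polynomial.aeval z G = 0 ∧ Polynomial.aeval z (Polynomial.derivative G) ≠ 0) →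
      ∀ (c₀ : ℤ) (M : Fin r → ℤ), M ≠ 0 → ∀ ε : ℝ, 0 < ε → ∃ X₀ : ℝ, 0 < X₀ ∧ ∀ N : ℕ, 1 ≤ N →
        (((Ioc N (2 * N)).filter (fun n : ℕ => ¬ ∀ x : ℕ, X₀ * (1 + Real.log N) ^ B ≤ x → (x : ℝ) ≤ (N : ℝ) ^ κ →
          |(P (D * (G.eval (c₀ + ∑ l, M l * values F a n l)) ^ 2) x : ℝ) - density D * Nat.primeCounting x| ≤
            ε * Nat.primeCounting x)).card : ℝ) ≤ C * (N : ℝ) ^ (1 - κ) := by
  refine ⟨fun m s hs δ hδ => ?_, fun B hB => ?_⟩
  · obtain ⟨κ, C, hκ, hC, hcore⟩ := core (s := s) hr hs F a c h hc m δ hδ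
    refine ⟨κ, C, hκ, by linarith, ?_, ?_⟩
    · intro A N hN W hW
      obtain ⟨E, hE1, hE2⟩ := hcore (fun j τ => MvPolynomial.eval τ (A j)) (fun p j c d hcd => eval_congr _ p hcd) N hN W hW
      refine le_trans (Nat.cast_le.2 (card_le_card fun n hn => ?_)) hE1
      rw [mem_filter] at hn
      by_contra hnE
      apply hn.2
      intro D hD K hK t
      have h4 := hE2 n hn.1 hnE D hD K hK t
      have e2 : model A t D K = ∑ k ∈ (range K).filter (fun k => k ∈ D), ∏ i : Fin s,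
          av (Nat.nth Nat.Prime (k + i)) (fun τ : Fin r → ℤ =>
            if ∀ j, Index (t i j) (Nat.nth Nat.Prime (k + i)) (MvPolynomial.eval τ (A j)) then 1 else 0) := by
        unfold model proportion Pool.Agent.N368.TS.av Pool.Agent.N368.TS.bx
        refine sum_congr rfl fun k _ => prod_congr rfl fun i _ => ?_
        rw [card_filter, Nat.cast_sum, Fintype.card_fin]
        congr 1
        refine sum_congr rfl fun τ _ => ?_
        rw [Nat.cast_ite, Nat.cast_one, Nat.cast_zero]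
      rw [e2]
      exact h4
    · intro d G c₀ M hd hG hM
      obtain ⟨C', hC', H⟩ := two_of_core hδ hC hcore d hd G hG c₀ M hM
      refine ⟨C', hC', fun N hN W hW => ?_⟩
      obtain ⟨E, hE1, hE2⟩ := H N hN W hW
      refine le_trans (Nat.cast_le.2 (card_le_card fun n hn => ?_)) hE1
      rw [mem_filter] at hn
      by_contra hnE
      exact hn.2 (hE2 n hn.1 hnE)
  · have hBinv : 1 / B < 1 / 2 := one_div_lt_one_div_of_lt (by norm_num) hB
    obtain ⟨κ, C, hκ, hC, hcore⟩ := core (s := 1) hr le_rfl F a c h hc 1 ((1 / 2 - 1 / B) / 2) (by linarith)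
    refine ⟨κ, C, hκ, by linarith, ?_⟩
    intro D hD hD1 hD2 G hG c₀ M hM ε hε
    obtain ⟨X₀, hX₀, H⟩ := three_of_core hB hκ hC hcore D hD hD1 hD2 G hG c₀ M hM ε hε
    refine ⟨X₀, hX₀, fun N hN => ?_⟩
    obtain ⟨E, hE1, hE2⟩ := H N hN
    refine le_trans (Nat.cast_le.2 (card_le_card fun n hn => ?_)) hE1
    rw [mem_filter] at hn
    by_contra hnE
    exact hn.2 (hE2 n hn.1 hnE)

end Pool.Agent.Results.MP_991e92_nt.ThinParameterFamilies
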